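import Mathlib

-- part Pool.Agent.P.MP_97b573_an.Step
section

set_option autoImplicit false

namespace Pool.Agent.P.MP_97b573_an

open Polynomial Finset

theorem digits_inj (B : ℕ) : ∀ (m : ℕ) (a c : ℕ → ℕ), (∀ i, a i < B) → (∀ i, c i < B) →
    ∑ i ∈ range m, a i * B ^ i ≡ ∑ i ∈ range m, c i * B ^ i [MOD B ^ m] → ∀ i < m, a i = c i := by
  intro m
  induction m with
  | zero => intro a c _ _ _ i hi; omega
  | succ m ih =>
    intro a c ha hc h
    have e : ∀ f : ℕ → ℕ, ∑ i ∈ range (m + 1), f i * B ^ i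
        = f 0 + B * ∑ i ∈ range m, f (i + 1) * B ^ i := by
      intro f
      rw [sum_range_succ', mul_sum, add_comm]
      simp only [pow_zero, mul_one, pow_succ]
      congr 1
      exact sum_congr rfl fun i _ => by ring
    rw [e, e] at h
    have hB : 0 < B := lt_of_le_of_lt (Nat.zero_le _) (ha 0)
    have h0 : a 0 = c 0 := by
      have h1 := h.of_dvd (dvd_pow_self B (Nat.succ_ne_zero m))
      unfold Nat.ModEq at h1
      rw [Nat.add_mul_mod_self_left, Nat.add_mul_mod_self_left, Nat.mod_eq_of_lt (ha 0),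
        Nat.mod_eq_of_lt (hc 0)] at h1
      exact h1
    rw [h0] at h
    have h2 := Nat.ModEq.add_left_cancel' _ h
    rw [pow_succ'] at h2
    have h3 := Nat.ModEq.mul_left_cancel' hB.ne' h2
    intro i hi
    cases i with
    | zero => exact h0
    | succ i => exact ih (fun i => a (i + 1)) (fun i => c (i + 1)) (fun _ => ha _) (fun _ => hc _)
                  h3 i (by omega)

/-- The almost independent generators. -/
def gen (B m : ℕ) (i : Fin m) : ℕ := B ^ m + B ^ (i : ℕ)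

/-- Position of a vector of multiplicities. -/
def pos (B m : ℕ) (k : Fin m → ℕ) : ℕ := ∑ i, k i * gen B m i

theorem pos_add_single (B m : ℕ) (k : Fin m → ℕ) (i : Fin m) :
    pos B m (k + Pi.single i 1) = pos B m k + gen B m i := by
  simp [pos, add_mul, sum_add_distrib, Pi.single_apply]

theorem deg_add_single (m : ℕ) (k : Fin m → ℕ) (i : Fin m) :
    ∑ j, (k + Pi.single i 1 : Fin m → ℕ) j = ∑ j, k j + 1 := by
  simp [sum_add_distrib]

theorem gen_lt {B m : ℕ} (hB : 2 ≤ B) (i : Fin m) : gen B m i < 2 * B ^ m := by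
  have := Nat.pow_lt_pow_right (show 1 < B by omega) i.2
  unfold gen
  omega

theorem pos_lt {B m P Q : ℕ} (hB : 2 ≤ B) (hQ : 2 * P ≤ Q) (k : Fin m → ℕ) (hk : ∑ i, k i < P) :
    pos B m k < Q * B ^ m := by
  have h1 : pos B m k ≤ (∑ i, k i) * (2 * B ^ m) := by
    rw [sum_mul]
    exact sum_le_sum fun i _ => Nat.mul_le_mul_left _ (gen_lt hB i).le
  have h2 : 0 < B ^ m := Nat.pow_pos (by omega)
  calc pos B m k ≤ (∑ i, k i) * (2 * B ^ m) := h1
    _ < P * (2 * B ^ m) := Nat.mul_lt_mul_of_pos_right hk (by omega)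
    _ = 2 * P * B ^ m := by ring
    _ ≤ Q * B ^ m := Nat.mul_le_mul_right _ hQ

theorem indep {B m Q : ℕ} (hQ : 0 < Q) (a a' : ℕ) (k k' : Fin m → ℕ) (hk : ∑ i, k i < B)
    (hk' : ∑ i, k' i < B)
    (h : a * (Q * B ^ m) + pos B m k = a' * (Q * B ^ m) + pos B m k') : k = k' ∧ a = a' := by
  have hB : 0 < B := by omega
  have e : ∀ (a : ℕ) (k : Fin m → ℕ), a * (Q * B ^ m) + pos B m k ≡
      ∑ i ∈ range m, (if h : i < m then k ⟨i, h⟩ else 0) * B ^ i [MOD B ^ m] := by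
    intro a k
    have : pos B m k = (∑ i, k i) * B ^ m +
        ∑ i ∈ range m, (if h : i < m then k ⟨i, h⟩ else 0) * B ^ i := by
      rw [sum_range, sum_mul, ← sum_add_distrib]
      refine sum_congr rfl fun i _ => ?_
      simp [gen, mul_add]
    rw [this, ← add_assoc, ← mul_assoc, ← add_mul]
    unfold Nat.ModEq
    rw [add_comm, Nat.add_mul_mod_self_right]
  have b : ∀ (k : Fin m → ℕ), ∑ i, k i < B → ∀ i, (if h : i < m then k ⟨i, h⟩ else 0) < B := by
    intro k hk i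
    split_ifs with hi
    · exact lt_of_le_of_lt (single_le_sum (f := k) (fun _ _ => Nat.zero_le _) (mem_univ _)) hk
    · exact hB
  have h1 := digits_inj B m _ _ (b k hk) (b k' hk') ((e a k).symm.trans (h ▸ e a' k'))
  have h2 : k = k' := by
    funext i
    simpa using h1 i i.2
  subst h2
  refine ⟨rfl, ?_⟩
  have h3 : 0 < Q * B ^ m := Nat.mul_pos hQ (Nat.pow_pos hB)
  exact Nat.eq_of_mul_eq_mul_right h3 (by omega)

theorem step (P Q : ℕ) (hP : 1 ≤ P) (hQ : 2 * P ≤ Q) (Φ : ℝ[X] →ₗ[ℝ] ℝ) (w : ℝ[X]) (hw : X ∣ w)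
    (hΦ : ∀ g, Φ (X ^ P * g) = 0) (hbd : ∀ a i, |Φ (X ^ a * w ^ i)| ≤ 1) :
    ∃ (M m : ℕ) (u : Fin m → ℕ) (Ψ : ℝ[X] →ₗ[ℝ] ℝ), Q ∣ M ∧ 0 < M ∧ 0 < m ∧
      (∀ i, 0 < u i ∧ u i < M) ∧ (∀ g, Ψ (expand ℝ M g) = Φ g) ∧
      (∀ g, Ψ (X ^ (P * M) * g) = 0) ∧
      ∀ a i, |Ψ (X ^ a * (C 2 * (expand ℝ M w - C (1 / (m : ℝ)) * ∑ j, X ^ u j)) ^ i)| ≤ 1 := by
  classical
  set J := P * Q with hJ
  set m := J * 4 ^ J with hm
  set B := P + J + 1 with hB
  set M := Q * B ^ m with hM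
  have hQ0 : 0 < Q := by omega
  have hJ0 : 0 < J := Nat.mul_pos hP hQ0
  have hm0 : 0 < m := Nat.mul_pos hJ0 (Nat.pow_pos (by norm_num))
  have hB2 : 2 ≤ B := by omega
  have hBm : 0 < B ^ m := Nat.pow_pos (by omega)
  have hM0 : 0 < M := Nat.mul_pos hQ0 hBm
  have hmR : (0 : ℝ) < m := by exact_mod_cast hm0
  let cone : ℕ → Prop := fun p => ∃ t : ℕ × (Fin m → ℕ), ∑ i, t.2 i < P ∧ p = t.1 * M + pos B m t.2
  let ψ : ℕ → ℝ := fun p =>
    if h : cone p then Φ (X ^ h.choose.1 * w ^ (∑ i, h.choose.2 i)) else 0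
  let Ψ : ℝ[X] →ₗ[ℝ] ℝ := (basisMonomials ℝ).constr ℝ ψ
  have hΨ : ∀ p, Ψ (X ^ p) = ψ p := by
    intro p
    have := (basisMonomials ℝ).constr_basis ℝ ψ p
    rw [coe_basisMonomials] at this
    rw [← monomial_one_right_eq_X_pow]
    exact this
  have hwz : ∀ (g : ℝ[X]) (d : ℕ), P ≤ d → Φ (g * w ^ d) = 0 := by
    intro g d hd
    obtain ⟨c, hc⟩ : X ^ P ∣ w ^ d := (pow_dvd_pow_of_dvd hw P).trans (pow_dvd_pow w hd)
    rw [hc, mul_left_comm, hΦ]
  have ψ1 : ∀ (a : ℕ) (k : Fin m → ℕ), ∑ i, k i < B →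
      ψ (a * M + pos B m k) = Φ (X ^ a * w ^ (∑ i, k i)) := by
    intro a k hk
    by_cases h : cone (a * M + pos B m k)
    · simp only [ψ, dif_pos h]
      obtain ⟨h1, h2⟩ := h.choose_spec
      obtain ⟨e1, e2⟩ := indep hQ0 _ _ _ _ hk (by omega) h2
      rw [← e1, ← e2]
    · simp only [ψ, dif_neg h]
      refine (hwz _ _ ?_).symm
      by_contra hlt
      exact h ⟨(a, k), by simpa using hlt, rfl⟩
  have ψ2 : ∀ p, ¬ cone p → ψ p = 0 := fun p h => by simp only [ψ, dif_neg h]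
  have lin : ∀ (F G : ℝ[X] →ₗ[ℝ] ℝ), (∀ n, F (X ^ n) = G (X ^ n)) → ∀ g, F g = G g := by
    intro F G h g
    induction g using Polynomial.induction_on' with
    | add p q hp hq => rw [map_add, map_add, hp, hq]
    | monomial n c => rw [← smul_X_eq_monomial, map_smul, map_smul, h]
  have E1 : ∀ (a : ℕ) (k : Fin m → ℕ), ∑ i, k i < B → ∀ b,
      Ψ (X ^ (a * M + pos B m k) * expand ℝ M b) = Φ (X ^ a * b * w ^ (∑ i, k i)) := by
    intro a k hk
    apply lin (Ψ ∘ₗ LinearMap.mulLeft ℝ (X ^ (a * M + pos B m k)) ∘ₗ (expand ℝ M).toLinearMap)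
      (Φ ∘ₗ LinearMap.mulRight ℝ (w ^ (∑ i, k i)) ∘ₗ LinearMap.mulLeft ℝ (X ^ a))
    intro n
    simp only [LinearMap.comp_apply, LinearMap.mulLeft_apply, LinearMap.mulRight_apply,
      AlgHom.toLinearMap_apply, map_pow, expand_X]
    rw [← pow_mul, ← pow_add, ← pow_add, hΨ, ← ψ1 (a + n) k hk]
    congr 1
    ring
  have E2 : ∀ p, ¬ cone p → ∀ b, Ψ (X ^ p * expand ℝ M b) = 0 := by
    intro p hp
    apply lin (Ψ ∘ₗ LinearMap.mulLeft ℝ (X ^ p) ∘ₗ (expand ℝ M).toLinearMap) 0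
    intro n
    simp only [LinearMap.comp_apply, LinearMap.mulLeft_apply,
      AlgHom.toLinearMap_apply, map_pow, expand_X, LinearMap.zero_apply]
    rw [← pow_mul, ← pow_add, hΨ]
    apply ψ2
    rintro ⟨⟨a, k⟩, h1, h2⟩
    have h3 : pos B m k < M := pos_lt hB2 hQ k h1
    simp only at h1 h2
    have h4 : n ≤ a := by
      by_contra hlt
      have : (a + 1) * M ≤ n * M := Nat.mul_le_mul_right _ (by omega)
      nlinarith
    obtain ⟨c, rfl⟩ := Nat.exists_eq_add_of_le h4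
    exact hp ⟨(c, k), h1, by simp only; nlinarith⟩
  have Z : ∀ g, Ψ (X ^ (P * M) * g) = 0 := by
    apply lin (Ψ ∘ₗ LinearMap.mulLeft ℝ (X ^ (P * M))) 0
    intro n
    simp only [LinearMap.comp_apply, LinearMap.mulLeft_apply, LinearMap.zero_apply]
    rw [← pow_add, hΨ]
    by_cases h : cone (P * M + n)
    · obtain ⟨⟨a, k⟩, h1, h2⟩ := h
      have h3 : pos B m k < M := pos_lt hB2 hQ k h1
      simp only at h1 h2
      rw [h2, ψ1 a k (by omega)]
      have h4 : P ≤ a := by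
        by_contra hlt
        have : (a + 1) * M ≤ P * M := Nat.mul_le_mul_right _ (by omega)
        nlinarith
      obtain ⟨c, rfl⟩ := Nat.exists_eq_add_of_le h4
      rw [pow_add, mul_assoc, hΦ]
    · exact ψ2 _ h
  set W := expand ℝ M w with hW
  set y : ℝ[X] := C (1 / (m : ℝ)) * ∑ j, X ^ gen B m j with hy
  have avg : ∀ (p : ℕ) (g : ℝ[X]), Ψ (X ^ p * (g * y)) =
      (1 / (m : ℝ)) * ∑ j, Ψ (X ^ (p + gen B m j) * g) := by
    intro p g
    have : X ^ p * (g * y) = (1 / (m : ℝ)) • ∑ j, X ^ (p + gen B m j) * g := by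
      rw [hy, smul_eq_C_mul]
      simp only [mul_sum]
      exact sum_congr rfl fun j _ => by ring
    rw [this, map_smul, map_sum, smul_eq_mul]
  have F1 : ∀ (j a r : ℕ) (k : Fin m → ℕ), ∑ i, k i + j < B →
      Ψ (X ^ (a * M + pos B m k) * (W ^ r * y ^ j)) = Φ (X ^ a * w ^ (r + ∑ i, k i + j)) := by
    intro j
    induction j with
    | zero =>
      intro a r k hk
      rw [pow_zero, mul_one, hW, ← map_pow, E1 a k hk, add_zero, pow_add, mul_assoc]
    | succ j ih =>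
      intro a r k hk
      rw [pow_succ, ← mul_assoc (W ^ r), avg]
      have : ∀ i, Ψ (X ^ (a * M + pos B m k + gen B m i) * (W ^ r * y ^ j)) =
          Φ (X ^ a * w ^ (r + ∑ i, k i + (j + 1))) := by
        intro i
        rw [add_assoc, ← pos_add_single, ih a r _ (by rw [deg_add_single]; omega), deg_add_single]
        congr 3
        omega
      simp only [this, sum_const, card_univ, Fintype.card_fin, nsmul_eq_mul]
      field_simp
  have F0 : ∀ (j p r : ℕ), |Ψ (X ^ p * (W ^ r * y ^ j))| ≤ 1 := by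
    intro j
    induction j with
    | zero =>
      intro p r
      by_cases h : cone p
      · obtain ⟨⟨a, k⟩, h1, rfl⟩ := h
        simp only at h1 ⊢
        rw [F1 0 a r k (by omega)]
        exact hbd _ _
      · rw [pow_zero, mul_one, hW, ← map_pow, E2 p h]
        simp
    | succ j ih =>
      intro p r
      rw [pow_succ, ← mul_assoc (W ^ r), avg, abs_mul, abs_of_pos (by positivity)]
      have : |∑ i, Ψ (X ^ (p + gen B m i) * (W ^ r * y ^ j))| ≤ m := by
        refine (abs_sum_le_sum_abs _ _).trans ((sum_le_sum fun i _ => ih _ r).trans ?_)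
        simp
      rw [one_div, inv_mul_le_iff₀ hmR, mul_one]
      exact this
  have one : ∀ p, ¬ cone p → ∀ i i', cone (p + gen B m i) → cone (p + gen B m i') → i = i' := by
    intro p hp i i' h h'
    obtain ⟨⟨a, k⟩, h1, h2⟩ := h
    obtain ⟨⟨a', k'⟩, h1', h2'⟩ := h'
    simp only at h1 h2 h1' h2'
    by_contra hii
    have e : a * M + pos B m (k + Pi.single i' 1) = a' * M + pos B m (k' + Pi.single i 1) := by
      rw [pos_add_single, pos_add_single]; omega
    have e2 := (indep hQ0 _ _ _ _ (by rw [deg_add_single]; omega)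
      (by rw [deg_add_single]; omega) e).1
    have e3 := congrFun e2 i
    simp only [Pi.add_apply, Pi.single_eq_same, Pi.single_eq_of_ne hii] at e3
    let k0 : Fin m → ℕ := Function.update k i (k' i)
    have e4 : k = k0 + Pi.single i 1 := by
      funext l
      by_cases hl : l = i
      · subst hl; simp [k0]; omega
      · simp [k0, hl]
    rw [e4, pos_add_single] at h2
    rw [e4, deg_add_single] at h1
    exact hp ⟨(a, k0), by simp only; omega, by simp only; omega⟩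
  have F2 : ∀ (j p r : ℕ), ¬ cone p → |Ψ (X ^ p * (W ^ r * y ^ j))| ≤ j / m := by
    intro j
    induction j with
    | zero =>
      intro p r h
      rw [pow_zero, mul_one, hW, ← map_pow, E2 p h]
      simp
    | succ j ih =>
      intro p r h
      rw [pow_succ, ← mul_assoc (W ^ r), avg, abs_mul, abs_of_pos (by positivity)]
      have h1 : ∀ i, |Ψ (X ^ (p + gen B m i) * (W ^ r * y ^ j))| ≤
          j / m + if cone (p + gen B m i) then 1 else 0 := by
        intro i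
        split_ifs with hc
        · have := F0 j (p + gen B m i) r
          have h0 : (0 : ℝ) ≤ j / m := by positivity
          linarith
        · simpa using ih _ r hc
      have h2 : ∑ i : Fin m, (if cone (p + gen B m i) then (1 : ℝ) else 0) ≤ 1 := by
        rw [sum_boole]
        exact_mod_cast card_le_one.2 fun i hi i' hi' =>
          one p h i i' (mem_filter.1 hi).2 (mem_filter.1 hi').2
      have : |∑ i, Ψ (X ^ (p + gen B m i) * (W ^ r * y ^ j))| ≤ j + 1 := by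
        refine (abs_sum_le_sum_abs _ _).trans ((sum_le_sum fun i _ => h1 i).trans ?_)
        rw [sum_add_distrib]
        simp only [sum_const, card_univ, Fintype.card_fin, nsmul_eq_mul]
        rw [mul_div_cancel₀ _ hmR.ne']
        linarith
      rw [one_div, inv_mul_eq_div]
      push_cast
      exact div_le_div_of_nonneg_right this hmR.le
  have split : ∀ (p r j i : ℕ), Ψ (X ^ p * (W ^ r * y ^ j * (W - y) ^ (i + 1))) =
      Ψ (X ^ p * (W ^ (r + 1) * y ^ j * (W - y) ^ i)) -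
        Ψ (X ^ p * (W ^ r * y ^ (j + 1) * (W - y) ^ i)) := by
    intro p r j i
    rw [← map_sub]
    congr 1
    ring
  have G1 : ∀ (i j a r : ℕ) (k : Fin m → ℕ), ∑ i, k i + j + (i + 1) < B →
      Ψ (X ^ (a * M + pos B m k) * (W ^ r * y ^ j * (W - y) ^ (i + 1))) = 0 := by
    intro i
    induction i with
    | zero =>
      intro j a r k hk
      rw [split, pow_zero, mul_one, mul_one, F1 j a _ k (by omega), F1 (j + 1) a _ k (by omega)]
      rw [sub_eq_zero]
      congr 3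
      omega
    | succ i ih =>
      intro j a r k hk
      rw [split, ih j a _ k (by omega), ih (j + 1) a _ k (by omega), sub_zero]
  have G2 : ∀ (i j p r : ℕ), ¬ cone p →
      |Ψ (X ^ p * (W ^ r * y ^ j * (W - y) ^ i))| ≤ 2 ^ i * ((j + i) / m) := by
    intro i
    induction i with
    | zero => intro j p r h; simpa using F2 j p r h
    | succ i ih =>
      intro j p r h
      rw [split]
      have h1 := ih j p (r + 1) h
      have h2 := ih (j + 1) p r h
      have h3 : (2 : ℝ) ^ i * ((j + i) / m) ≤ 2 ^ i * ((j + 1 + i) / m) := by gcongr; linarith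
      refine (abs_sub _ _).trans ?_
      push_cast at h2 ⊢
      have h4 : (2 : ℝ) ^ (i + 1) * ((j + (i + 1)) / m) = 2 * (2 ^ i * ((j + 1 + i) / m)) := by ring
      linarith
  refine ⟨M, m, gen B m, Ψ, Dvd.intro _ rfl, hM0, hm0, fun i => ⟨?_, ?_⟩, fun g => ?_, Z, ?_⟩
  · unfold gen; omega
  · refine lt_of_lt_of_le (gen_lt hB2 i) (Nat.mul_le_mul_right _ (by omega))
  · have := E1 0 0 (by simp; omega) g
    simpa [pos] using this
  · intro p i
    rw [← hy]
    have e : X ^ p * (C 2 * (W - y)) ^ i = (2 : ℝ) ^ i • (X ^ p * (W ^ 0 * y ^ 0 * (W - y) ^ i)) := by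
      rw [smul_eq_C_mul, map_pow, mul_pow]; ring
    rw [e, map_smul, smul_eq_mul, abs_mul, abs_of_pos (by positivity)]
    by_cases hi : J ≤ i
    · have d1 : X ^ (B ^ m) ∣ W - y := by
        apply dvd_sub
        · obtain ⟨c, hc⟩ := hw
          rw [hW, hc, map_mul, expand_X]
          exact (pow_dvd_pow X (Nat.le_mul_of_pos_left _ hQ0)).mul_right _
        · exact Dvd.dvd.mul_left (dvd_sum fun j _ => pow_dvd_pow X (Nat.le_add_right _ _)) _
      have d2 : X ^ (P * M) ∣ (W - y) ^ i := by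
        have : P * M = B ^ m * J := by rw [hM, hJ]; ring
        rw [this, pow_mul]
        exact (pow_dvd_pow_of_dvd d1 J).trans (pow_dvd_pow _ hi)
      obtain ⟨c, hc⟩ := d2
      have : X ^ p * (W ^ 0 * y ^ 0 * (W - y) ^ i) = X ^ (P * M) * (X ^ p * c) := by
        rw [hc]; ring
      rw [this, Z]
      simp
    · push Not at hi
      by_cases h : cone p
      · obtain ⟨⟨a, k⟩, h1, rfl⟩ := h
        simp only at h1 ⊢
        cases i with
        | zero => simpa using F0 0 (a * M + pos B m k) 0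
        | succ i => rw [G1 i 0 a 0 k (by omega)]; simp
      · have h1 := G2 i 0 p 0 h
        have h2 : (2 : ℝ) ^ i * (2 ^ i * ((((0 : ℕ) : ℝ) + i) / m)) ≤ 1 := by
          rw [← mul_assoc, ← mul_pow, ← mul_div_assoc, div_le_one hmR, hm]
          push_cast
          have h3 : ((2 : ℝ) * 2) ^ i ≤ 4 ^ J := by
            norm_num
            exact pow_le_pow_right₀ (by norm_num) hi.le
          have h4 : (0 : ℝ) + i ≤ J := by
            rw [zero_add]; exact_mod_cast hi.le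
          rw [mul_comm]
          gcongr
        exact le_trans (by gcongr) h2

end Pool.Agent.P.MP_97b573_an
end

-- part Pool.Agent.P.MP_97b573_an.Core
section

set_option autoImplicit false

namespace Pool.Agent.P.MP_97b573_an

open Polynomial Finset Filter Topology

/-- One level of the tower. -/
structure Stage where
  P : ℕ
  Φ : ℝ[X] →ₗ[ℝ] ℝ
  w : ℝ[X]
  hP : 2 ≤ P
  hw : X ∣ w
  hΦ : ∀ g, Φ (X ^ P * g) = 0
  hbd : ∀ a i, |Φ (X ^ a * w ^ i)| ≤ 1

/-- The data linking two consecutive levels. -/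
structure Link (n : ℕ) (s : Stage) where
  nxt : Stage
  M : ℕ
  m : ℕ
  u : Fin m → ℕ
  hn : (n + 1) ∣ M
  hM : 0 < M
  hm : 0 < m
  hu : ∀ i, 0 < u i ∧ u i < M
  hP : nxt.P = s.P * M
  hΦ : ∀ g, nxt.Φ (expand ℝ M g) = s.Φ g
  hw : nxt.w = C 2 * (expand ℝ M s.w - C (1 / (m : ℝ)) * ∑ j, X ^ u j)

theorem link_nonempty (n : ℕ) (s : Stage) : Nonempty (Link n s) := by
  have hP := s.hP
  obtain ⟨M, m, u, Ψ, h1, h2, h3, h4, h5, h6, h7⟩ := step s.P (2 * s.P * (n + 1)) (by omega)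
    (Nat.le_mul_of_pos_right _ (by omega)) s.Φ s.w s.hw s.hΦ s.hbd
  refine ⟨⟨⟨s.P * M, Ψ, _, le_trans hP (Nat.le_mul_of_pos_right _ h2), ?_, h6, h7⟩, M, m, u,
    (Dvd.intro_left _ rfl).trans h1, h2, h3, h4, rfl, h5, rfl⟩⟩
  apply Dvd.dvd.mul_left
  apply dvd_sub
  · obtain ⟨c, hc⟩ := s.hw
    rw [hc, map_mul, expand_X]
    exact (dvd_pow_self X h2.ne').mul_right _
  · exact Dvd.dvd.mul_left (dvd_sum fun j _ => dvd_pow_self X (h4 j).1.ne') _

/-- The first level. -/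
noncomputable def stage0 : Stage where
  P := 2
  Φ := lcoeff ℝ 1
  w := X
  hP := le_rfl
  hw := dvd_rfl
  hΦ := fun g => by simp [coeff_X_pow_mul']
  hbd := fun a i => by
    rw [← pow_add, lcoeff_apply, coeff_X_pow]
    split_ifs <;> simp

/-- The tower. -/
noncomputable def tower : ℕ → Stage
  | 0 => stage0
  | n + 1 => (link_nonempty n (tower n)).some.nxt

/-- The links of the tower. -/
noncomputable def lk (n : ℕ) : Link n (tower n) := (link_nonempty n (tower n)).some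

theorem tower_succ (n : ℕ) : tower (n + 1) = (lk n).nxt := rfl

theorem P_pos (n : ℕ) : 0 < (tower n).P := lt_of_lt_of_le (by norm_num) (tower n).hP

theorem tower_le {n N : ℕ} (h : n ≤ N) : ∃ c, 0 < c ∧ (tower N).P = (tower n).P * c ∧
    ∀ g, (tower N).Φ (expand ℝ c g) = (tower n).Φ g := by
  induction N, h using Nat.le_induction with
  | base => exact ⟨1, one_pos, by simp, by simp⟩
  | succ N _ ih =>
    obtain ⟨c, h0, h1, h2⟩ := ih
    refine ⟨(lk N).M * c, Nat.mul_pos (lk N).hM h0, ?_, fun g => ?_⟩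
    · rw [tower_succ, (lk N).hP, h1]; ring
    · rw [tower_succ, expand_mul, (lk N).hΦ, h2]

theorem exists_level (s : ℚ) (hs : 0 ≤ s) : ∃ n a : ℕ, s = (a : ℚ) / ((tower n).P : ℚ) := by
  obtain ⟨d, hd⟩ : ∃ d, s.den = d + 1 := Nat.exists_eq_succ_of_ne_zero s.den_nz
  obtain ⟨c, hc⟩ := (lk d).hn
  have hP := P_pos (d + 1)
  have e : (tower (d + 1)).P = s.den * ((tower d).P * c) := by
    rw [tower_succ, (lk d).hP, hc, hd]; ring
  refine ⟨d + 1, s.num.toNat * ((tower d).P * c), ?_⟩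
  have h0 : ((tower d).P * c : ℕ) ≠ 0 := by
    intro h; rw [e, h] at hP; simp at hP
  have h1 : ((s.num.toNat : ℕ) : ℚ) = (s.num : ℚ) := by
    have := Int.toNat_of_nonneg (Rat.num_nonneg.2 hs)
    exact_mod_cast this
  rw [e, Nat.cast_mul, Nat.cast_mul s.den, mul_div_mul_right _ _ (by exact_mod_cast h0), h1,
    Rat.num_div_den]

open Classical in
/-- The limiting functional. -/
noncomputable def phi (q : ℚ) : ℝ :=
  if h : ∃ t : ℕ × ℕ, q = (t.2 : ℚ) / ((tower t.1).P : ℚ) then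
    (tower h.choose.1).Φ (X ^ h.choose.2) else 0

theorem consistent {n N a b : ℕ} (h : n ≤ N)
    (e : (a : ℚ) / ((tower n).P : ℚ) = (b : ℚ) / ((tower N).P : ℚ)) :
    (tower n).Φ (X ^ a) = (tower N).Φ (X ^ b) := by
  obtain ⟨c, h0, h1, h2⟩ := tower_le h
  have hn : ((tower n).P : ℚ) ≠ 0 := by exact_mod_cast (P_pos n).ne'
  have hc : (c : ℚ) ≠ 0 := by exact_mod_cast h0.ne'
  rw [h1] at e
  push_cast at e
  field_simp at e
  have e' : b = c * a := by
    have : (b : ℚ) = c * a := by linarith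
    exact_mod_cast this
  rw [← h2, e', map_pow, expand_X, pow_mul]

theorem phi_eq (n a : ℕ) : phi ((a : ℚ) / ((tower n).P : ℚ)) = (tower n).Φ (X ^ a) := by
  have h : ∃ t : ℕ × ℕ, (a : ℚ) / ((tower n).P : ℚ) = (t.2 : ℚ) / ((tower t.1).P : ℚ) :=
    ⟨(n, a), rfl⟩
  rw [phi, dif_pos h]
  rcases le_total n h.choose.1 with h1 | h1
  · exact (consistent h1 h.choose_spec).symm
  · exact consistent h1 h.choose_spec.symm

theorem phi_le (q : ℚ) : |phi q| ≤ 1 := by
  unfold phi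
  split_ifs with h
  · simpa using (tower h.choose.1).hbd h.choose.2 0
  · simp

theorem phi_zero (q : ℚ) (hq : 1 ≤ q) : phi q = 0 := by
  obtain ⟨n, a, rfl⟩ := exists_level q (by linarith)
  rw [phi_eq]
  have hn : (0 : ℚ) < ((tower n).P : ℚ) := by exact_mod_cast P_pos n
  rw [le_div_iff₀ hn, one_mul] at hq
  obtain ⟨c, rfl⟩ := Nat.exists_eq_add_of_le (show (tower n).P ≤ a by exact_mod_cast hq)
  rw [pow_add, (tower n).hΦ]

theorem phi_half : phi (1 / 2) = 1 := by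
  have := phi_eq 0 1
  simpa [tower, stage0] using this

/-- Evaluation of a polynomial against a function on the rationals. -/
noncomputable def ev (P : ℕ) (ψ : ℚ → ℝ) : ℝ[X] →ₗ[ℝ] ℝ :=
  (basisMonomials ℝ).constr ℝ fun k => ψ ((k : ℚ) / (P : ℚ))

theorem ev_pow (P : ℕ) (ψ : ℚ → ℝ) (k : ℕ) : ev P ψ (X ^ k) = ψ ((k : ℚ) / (P : ℚ)) := by
  have := (basisMonomials ℝ).constr_basis ℝ (fun k : ℕ => ψ ((k : ℚ) / (P : ℚ))) k
  rw [coe_basisMonomials] at this
  rw [← monomial_one_right_eq_X_pow]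
  exact this

theorem lin_ext (F G : ℝ[X] →ₗ[ℝ] ℝ) (h : ∀ n, F (X ^ n) = G (X ^ n)) (g : ℝ[X]) : F g = G g := by
  induction g using Polynomial.induction_on' with
  | add p q hp hq => rw [map_add, map_add, hp, hq]
  | monomial n c => rw [← smul_X_eq_monomial, map_smul, map_smul, h]

theorem ev_expand (P M : ℕ) (hM : 0 < M) (ψ : ℚ → ℝ) (g : ℝ[X]) :
    ev (P * M) ψ (expand ℝ M g) = ev P ψ g := by
  apply lin_ext (ev (P * M) ψ ∘ₗ (expand ℝ M).toLinearMap) (ev P ψ)
  intro n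
  simp only [LinearMap.comp_apply, AlgHom.toLinearMap_apply, map_pow, expand_X]
  rw [← pow_mul, ev_pow, ev_pow]
  congr 1
  have : (M : ℚ) ≠ 0 := by exact_mod_cast hM.ne'
  push_cast
  rw [mul_comm (M : ℚ), mul_div_mul_right _ _ this]

/-- The points of level `n + 1`. -/
noncomputable def pt (n : ℕ) (i : Fin (lk n).m) : ℚ := ((lk n).u i : ℚ) / ((tower (n + 1)).P : ℚ)

theorem pt_bounds (n : ℕ) (i : Fin (lk n).m) : 0 < pt n i ∧ pt n i < 1 / 2 := by
  have h1 : (0 : ℚ) < ((tower (n + 1)).P : ℚ) := by exact_mod_cast P_pos (n + 1)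
  obtain ⟨h2, h3⟩ := (lk n).hu i
  constructor
  · exact div_pos (by exact_mod_cast h2) h1
  · rw [pt, div_lt_div_iff₀ h1 (by norm_num), tower_succ, (lk n).hP]
    have h4 := Nat.mul_le_mul_right (lk n).M (tower n).hP
    have : (lk n).u i * 2 < 1 * ((tower n).P * (lk n).M) := by omega
    exact_mod_cast this

theorem ev_w (ψ : ℚ → ℝ) (N : ℕ) : ev (tower N).P ψ (tower N).w =
    2 ^ N * (ψ (1 / 2) - ∑ n ∈ range N, (1 / 2) ^ n * ((1 / ((lk n).m : ℝ)) * ∑ i, ψ (pt n i))) := by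
  induction N with
  | zero =>
    have := ev_pow 2 ψ 1
    simpa [tower, stage0] using this
  | succ N ih =>
    have e : ev (tower (N + 1)).P ψ (tower (N + 1)).w =
        2 * (ev (tower N).P ψ (tower N).w - (1 / ((lk N).m : ℝ)) * ∑ i, ψ (pt N i)) := by
      have h1 : (tower (N + 1)).w = (2 : ℝ) • (expand ℝ (lk N).M (tower N).w -
          (1 / ((lk N).m : ℝ)) • ∑ j, X ^ (lk N).u j) := by
        rw [tower_succ, (lk N).hw, smul_eq_C_mul, smul_eq_C_mul]
      have h2 : (tower (N + 1)).P = (tower N).P * (lk N).M := (lk N).hP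
      rw [h1, map_smul, map_sub, map_smul, map_sum, smul_eq_mul, smul_eq_mul]
      simp only [ev_pow, pt]
      rw [h2, ev_expand _ _ (lk N).hM]
    rw [e, ih, sum_range_succ]
    have : (2 : ℝ) ^ N * (1 / 2) ^ N = 1 := by rw [← mul_pow]; norm_num
    linear_combination (2 * ((1 / ((lk N).m : ℝ)) * ∑ i, ψ (pt N i))) * this

theorem Phi_ev (N a : ℕ) (g : ℝ[X]) : (tower N).Φ (X ^ a * g) =
    ev (tower N).P (fun q => phi ((a : ℚ) / ((tower N).P : ℚ) + q)) g := by
  apply lin_ext ((tower N).Φ ∘ₗ LinearMap.mulLeft ℝ (X ^ a))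
  intro n
  simp only [LinearMap.comp_apply, LinearMap.mulLeft_apply]
  rw [ev_pow, ← pow_add, ← phi_eq, ← add_div]
  push_cast
  rfl

theorem core : ∃ (m : ℕ → ℕ) (t : (n : ℕ) → Fin (m n) → ℚ) (φ : ℚ → ℝ), (∀ n, 0 < m n) ∧
    (∀ n i, 0 < t n i ∧ t n i < 1 / 2) ∧ (∀ q, |φ q| ≤ 1) ∧ (∀ q, 1 ≤ q → φ q = 0) ∧
    φ (1 / 2) = 1 ∧ ∀ s : ℚ, 0 ≤ s → Tendsto (fun N => ∑ n ∈ range N,
      (1 / 2 : ℝ) ^ n * ((1 / (m n : ℝ)) * ∑ i, φ (s + t n i))) atTop (𝓝 (φ (s + 1 / 2))) := by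
  refine ⟨fun n => (lk n).m, pt, phi, fun n => (lk n).hm, pt_bounds, phi_le, phi_zero, phi_half,
    fun s hs => ?_⟩
  obtain ⟨n, a, hs⟩ := exists_level s hs
  rw [tendsto_iff_norm_sub_tendsto_zero]
  refine squeeze_zero' (Eventually.of_forall fun _ => norm_nonneg _) ?_
    (tendsto_pow_atTop_nhds_zero_of_lt_one (r := (1 / 2 : ℝ)) (by norm_num) (by norm_num))
  filter_upwards [eventually_ge_atTop n] with N hN
  obtain ⟨c, h0, h1, -⟩ := tower_le hN
  have hc : (c : ℚ) ≠ 0 := by exact_mod_cast h0.ne'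
  have e : s = ((a * c : ℕ) : ℚ) / ((tower N).P : ℚ) := by
    rw [hs, h1]
    push_cast
    rw [mul_div_mul_right _ _ hc]
  have h2 := (tower N).hbd (a * c) 1
  rw [pow_one, Phi_ev, ev_w, ← e, abs_mul, abs_of_pos (by positivity)] at h2
  rw [Real.norm_eq_abs, abs_sub_comm, one_div_pow, le_div_iff₀ (by positivity), mul_comm]
  exact h2

end Pool.Agent.P.MP_97b573_an
end

-- part Pool.Agent.P.MP_97b573_an.Main
section

set_option autoImplicit false

namespace Pool.Agent.P.MP_97b573_an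

open Finset Filter Topology

theorem pair : ∃ (g φ : ℚ → ℝ), (∀ q, 0 ≤ g q) ∧ Summable g ∧ (∀ q, q ≤ 0 → g q = 0) ∧
    (∀ q, 1 / 2 ≤ q → g q = 0) ∧ (∀ q, |φ q| ≤ 1) ∧ (∀ q, 1 ≤ q → φ q = 0) ∧ φ (1 / 2) = 1 ∧
    ∀ s : ℚ, 0 ≤ s → HasSum (fun q => g q * φ (q + s)) (φ (1 / 2 + s)) := by
  obtain ⟨m, t, φ, hm, ht, h1, h2, h3, h4⟩ := core
  let c : (Σ n, Fin (m n)) → ℝ := fun b => (1 / 2 : ℝ) ^ b.1 * (1 / (m b.1 : ℝ))
  let π : (Σ n, Fin (m n)) → ℚ := fun b => t b.1 b.2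
  have hc0 : ∀ b, 0 ≤ c b := fun b => by positivity
  have hc : Summable c := by
    rw [summable_sigma_of_nonneg hc0]
    refine ⟨fun n => (hasSum_fintype _).summable, ?_⟩
    refine (summable_geometric_two).congr fun n => ?_
    have : (m n : ℝ) ≠ 0 := by exact_mod_cast (hm n).ne'
    rw [tsum_fintype]
    simp only [c, sum_const, card_univ, Fintype.card_fin, nsmul_eq_mul]
    field_simp
  let g : ℚ → ℝ := fun q => ∑' b : π ⁻¹' {q}, c b
  have hg0 : ∀ q, (∀ b, π b ≠ q) → g q = 0 := by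
    intro q hq
    have : IsEmpty (π ⁻¹' {q}) := ⟨fun b => hq b b.2⟩
    exact tsum_empty
  refine ⟨g, φ, fun q => tsum_nonneg fun b => hc0 b, (hc.hasSum.tsum_fiberwise π).summable,
    fun q hq => hg0 q fun b hb => ?_, fun q hq => hg0 q fun b hb => ?_, h1, h2, h3,
    fun s hs => ?_⟩
  · have := (ht b.1 b.2).1
    simp only [π] at hb
    linarith
  · have := (ht b.1 b.2).2
    simp only [π] at hb
    linarith
  · have s1 : Summable fun b => c b * φ (π b + s) := by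
      refine Summable.of_norm_bounded hc fun b => ?_
      rw [Real.norm_eq_abs, abs_mul, abs_of_nonneg (hc0 b)]
      exact mul_le_of_le_one_right (hc0 b) (h1 _)
    have s2 := s1.hasSum.sigma (g := fun n => (1 / 2 : ℝ) ^ n *
        ((1 / (m n : ℝ)) * ∑ i, φ (s + t n i))) (fun n => by
      have := hasSum_fintype (fun i : Fin (m n) => c ⟨n, i⟩ * φ (π ⟨n, i⟩ + s))
      convert this using 1
      simp only [c, π, mul_sum, add_comm s, mul_assoc])
    have s3 := tendsto_nhds_unique s2.tendsto_sum_nat (h4 s hs)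
    have s4 := s1.hasSum.tsum_fiberwise π
    rw [s3, add_comm] at s4
    have e : (fun q => g q * φ (q + s)) = fun q => ∑' b : π ⁻¹' {q}, c b * φ (π b + s) := by
      funext q
      rw [← tsum_mul_right]
      refine tsum_congr fun b => ?_
      have : π b = q := b.2
      rw [this]
    rw [e]
    exact s4

theorem weight_bdd (ω : ℚ → ℝ) (hpos : ∀ q, 0 < q → 0 < ω q)
    (hsub : ∀ s t, 0 < s → 0 < t → ω (s + t) ≤ ω s * ω t)
    (hbd : ∃ ε : ℚ, 0 < ε ∧ ∃ K : ℝ, ∀ q, 0 < q → q < ε → ω q ≤ K) :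
    ∃ K : ℝ, 0 < K ∧ ∀ q, 0 < q → q ≤ 1 → ω q ≤ K := by
  obtain ⟨ε, hε, K, hK⟩ := hbd
  obtain ⟨N, hN⟩ := exists_nat_one_div_lt hε
  have hpow : ∀ (r : ℚ), 0 < r → ∀ n : ℕ, ω (((n : ℚ) + 1) * r) ≤ ω r ^ (n + 1) := by
    intro r hr n
    induction n with
    | zero => simp
    | succ n ih =>
      have e : (((n + 1 : ℕ) : ℚ) + 1) * r = ((n : ℚ) + 1) * r + r := by push_cast; ring
      rw [e, pow_succ]
      exact (hsub _ _ (by positivity) hr).trans (mul_le_mul_of_nonneg_right ih (hpos r hr).le)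
  have key : ∀ q, 0 < q → q ≤ 1 → ω q ≤ K ^ (N + 1) := by
    intro q h0 h1
    have hN0 : (0 : ℚ) < (N : ℚ) + 1 := by positivity
    have h2 := hpow (q / ((N : ℚ) + 1)) (by positivity) N
    rw [mul_div_cancel₀ _ hN0.ne'] at h2
    refine h2.trans (pow_le_pow_left₀ (hpos _ (by positivity)).le (hK _ (by positivity) ?_) _)
    exact lt_of_le_of_lt (div_le_div_of_nonneg_right h1 hN0.le) hN
  exact ⟨K ^ (N + 1), lt_of_lt_of_le (hpos 1 one_pos) (key 1 one_pos le_rfl), key⟩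

theorem main (ω : ℚ → ℝ) (hpos : ∀ q, 0 < q → 0 < ω q)
    (hsub : ∀ s t, 0 < s → 0 < t → ω (s + t) ≤ ω s * ω t)
    (hbd : ∃ ε : ℚ, 0 < ε ∧ ∃ K : ℝ, ∀ q, 0 < q → q < ε → ω q ≤ K) :
    ∃ I : Set (ℚ → ℂ),
      (∀ f ∈ I, (∀ q : ℚ, q ≤ 0 → f q = 0) ∧ Summable (fun q : ℚ => ‖f q‖ * ω q)) ∧
      (0 : ℚ → ℂ) ∈ I ∧
      (∀ f ∈ I, ∀ g ∈ I, f + g ∈ I) ∧
      (∀ c : ℂ, ∀ f ∈ I, c • f ∈ I) ∧
      (∀ a : ℚ → ℂ, (∀ q : ℚ, q ≤ 0 → a q = 0) → Summable (fun q : ℚ => ‖a q‖ * ω q) →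
        ∀ f ∈ I, (fun t : ℚ => ∑' s : ℚ, a s * f (t - s)) ∈ I) ∧
      (∀ f : ℚ → ℂ, (∀ q : ℚ, q ≤ 0 → f q = 0) → Summable (fun q : ℚ => ‖f q‖ * ω q) →
        (∀ ε : ℝ, 0 < ε → ∃ g ∈ I, ∑' q : ℚ, ‖f q - g q‖ * ω q < ε) → f ∈ I) ∧
      I ≠ {(0 : ℚ → ℂ)} ∧
      ∀ α : ℝ, 0 ≤ α →
        I ≠ {f : ℚ → ℂ | (∀ q : ℚ, q ≤ 0 → f q = 0) ∧ Summable (fun q : ℚ => ‖f q‖ * ω q) ∧
              ∀ q : ℚ, (q : ℝ) < α → f q = 0} ∧
        I ≠ {f : ℚ → ℂ | (∀ q : ℚ, q ≤ 0 → f q = 0) ∧ Summable (fun q : ℚ => ‖f q‖ * ω q) ∧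
              ∀ q : ℚ, (q : ℝ) ≤ α → f q = 0} := by
  classical
  obtain ⟨K, hK0, hK⟩ := weight_bdd ω hpos hsub hbd
  obtain ⟨g, φ, g0, gs, g1, g2, p1, p2, p3, p4⟩ := pair
  have hω1 := hpos 1 one_pos
  set C : ℝ := K / ω 1 with hC
  have hC0 : 0 < C := div_pos hK0 hω1
  have hφ : ∀ q s : ℚ, 0 < q → 0 ≤ s → ‖(φ (q + s) : ℂ)‖ ≤ C * ω q := by
    intro q s hq hs
    rw [Complex.norm_real, Real.norm_eq_abs]
    by_cases h : 1 ≤ q
    · rw [p2 _ (by linarith), abs_zero]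
      exact (mul_pos hC0 (hpos q hq)).le
    · refine (p1 _).trans ?_
      push Not at h
      have h1 := hsub q (1 - q) hq (by linarith)
      rw [add_sub_cancel] at h1
      have h2 := hK (1 - q) (by linarith) (by linarith)
      have h3 := hpos q hq
      rw [hC, div_mul_eq_mul_div, le_div_iff₀ hω1]
      nlinarith
  have nn : ∀ h : ℚ → ℂ, (∀ q : ℚ, q ≤ 0 → h q = 0) → ∀ q, 0 ≤ ‖h q‖ * ω q := by
    intro h h0 q
    rcases le_or_gt q 0 with hq | hq
    · simp [h0 q hq]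
    · exact mul_nonneg (norm_nonneg _) (hpos q hq).le
  have bd : ∀ h : ℚ → ℂ, (∀ q : ℚ, q ≤ 0 → h q = 0) → ∀ s : ℚ, 0 ≤ s → ∀ q,
      ‖h q * (φ (q + s) : ℂ)‖ ≤ C * (‖h q‖ * ω q) := by
    intro h h0 s hs q
    rcases le_or_gt q 0 with hq | hq
    · simp [h0 q hq]
    · rw [norm_mul, mul_left_comm]
      exact mul_le_mul_of_nonneg_left (hφ q s hq hs) (norm_nonneg _)
  have sm : ∀ h : ℚ → ℂ, (∀ q : ℚ, q ≤ 0 → h q = 0) → Summable (fun q : ℚ => ‖h q‖ * ω q) →
      ∀ s : ℚ, 0 ≤ s → Summable fun q => h q * (φ (q + s) : ℂ) :=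
    fun h h0 h1 s hs => Summable.of_norm_bounded (h1.mul_left C) (bd h h0 s hs)
  have sadd : ∀ f h : ℚ → ℂ, (∀ q : ℚ, q ≤ 0 → f q = 0) → (∀ q : ℚ, q ≤ 0 → h q = 0) →
      Summable (fun q : ℚ => ‖f q‖ * ω q) → Summable (fun q : ℚ => ‖h q‖ * ω q) →
      ∀ k : ℚ → ℂ, (∀ q : ℚ, q ≤ 0 → k q = 0) → (∀ q, ‖k q‖ ≤ ‖f q‖ + ‖h q‖) →
      Summable (fun q : ℚ => ‖k q‖ * ω q) := by
    intro f h f0 h0 f1 h1 k k0 k1
    refine Summable.of_nonneg_of_le (nn k k0) (fun q => ?_) (f1.add h1)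
    rcases le_or_gt q 0 with hq | hq
    · simp [h0 q hq, f0 q hq, k0 q hq]
    · rw [← add_mul]
      exact mul_le_mul_of_nonneg_right (k1 q) (hpos q hq).le
  let I : Set (ℚ → ℂ) := {h | (∀ q : ℚ, q ≤ 0 → h q = 0) ∧ Summable (fun q : ℚ => ‖h q‖ * ω q) ∧
    ∀ s : ℚ, 0 ≤ s → ∑' q, h q * (φ (q + s) : ℂ) = 0}
  let δ : ℚ → ℂ := fun q => if q = 1 / 2 then 1 else 0
  have δ0 : ∀ q : ℚ, q ≤ 0 → δ q = 0 := fun q hq => if_neg (by linarith)
  have δ1 : Summable (fun q : ℚ => ‖δ q‖ * ω q) :=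
    summable_of_ne_finset_zero (s := {1 / 2}) fun q hq => by
      simp only [δ, if_neg (notMem_singleton.1 hq), norm_zero, zero_mul]
  have δ2 : ∀ s, ∑' q, δ q * (φ (q + s) : ℂ) = φ (1 / 2 + s) := by
    intro s
    rw [tsum_eq_single (1 / 2)]
    · simp only [δ, if_true, one_mul]
    · intro q hq
      simp only [δ, if_neg hq, zero_mul]
  have δI : δ ∉ I := by
    intro h
    have := h.2.2 0 le_rfl
    rw [δ2, add_zero, p3] at this
    simp at this
  have G0 : ∀ q : ℚ, q ≤ 0 → (g q : ℂ) = 0 := fun q hq => by rw [g1 q hq]; simp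
  have G1 : Summable (fun q : ℚ => ‖(g q : ℂ)‖ * ω q) := by
    refine Summable.of_nonneg_of_le (nn _ G0) (fun q => ?_) (gs.mul_right K)
    rw [Complex.norm_real, Real.norm_eq_abs, abs_of_nonneg (g0 q)]
    rcases le_or_gt q 0 with hq | hq
    · simp [g1 q hq]
    rcases le_or_gt (1 / 2) q with hq' | hq'
    · simp [g2 q hq']
    exact mul_le_mul_of_nonneg_left (hK q hq (by linarith)) (g0 q)
  let f : ℚ → ℂ := fun q => δ q - g q
  have f0 : ∀ q : ℚ, q ≤ 0 → f q = 0 := fun q hq => by simp only [f, δ0 q hq, G0 q hq, sub_zero]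
  have fI : f ∈ I := by
    refine ⟨f0, sadd δ (fun q => g q) δ0 G0 δ1 G1 f f0 fun q => norm_sub_le _ _, fun s hs => ?_⟩
    simp only [f, sub_mul]
    rw [(sm δ δ0 δ1 s hs).tsum_sub (sm _ G0 G1 s hs), δ2, sub_eq_zero]
    have := (Complex.hasSum_ofReal.2 (p4 s hs)).tsum_eq
    rw [← this]
    simp
  have fh : f (1 / 2) = 1 := by
    simp only [f, δ, if_true, g2 _ le_rfl]
    simp
  refine ⟨I, fun f hf => ⟨hf.1, hf.2.1⟩, ⟨fun _ _ => rfl, by simp,
    fun s _ => by simp⟩, ?_, ?_, ?_, ?_, ?_, ?_⟩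
  · intro f hf h hh
    have k0 : ∀ q : ℚ, q ≤ 0 → (f + h) q = 0 := fun q hq => by simp [hf.1 q hq, hh.1 q hq]
    refine ⟨k0, sadd f h hf.1 hh.1 hf.2.1 hh.2.1 _ k0 fun q => norm_add_le _ _, fun s hs => ?_⟩
    simp only [Pi.add_apply, add_mul]
    rw [(sm f hf.1 hf.2.1 s hs).tsum_add (sm h hh.1 hh.2.1 s hs), hf.2.2 s hs, hh.2.2 s hs,
      add_zero]
  · intro c f hf
    refine ⟨fun q hq => by simp [hf.1 q hq], ?_, fun s hs => ?_⟩
    · simpa only [Pi.smul_apply, norm_smul, mul_assoc] using hf.2.1.mul_left ‖c‖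
    · simp only [Pi.smul_apply, smul_eq_mul, mul_assoc]
      rw [tsum_mul_left, hf.2.2 s hs, mul_zero]
  · intro a a0 a1 h hh
    have z : ∀ t r : ℚ, t ≤ 0 → a r * h (t - r) = 0 := by
      intro t r ht
      rcases le_or_gt r 0 with hr | hr
      · rw [a0 r hr, zero_mul]
      · rw [hh.1 _ (by linarith), mul_zero]
    have S1 := a1.mul_of_nonneg hh.2.1 (nn a a0) (nn h hh.1)
    let e : ℚ × ℚ ≃ ℚ × ℚ :=
      ⟨fun p => (p.2, p.1 - p.2), fun p => (p.2 + p.1, p.1), fun p => by simp, fun p => by simp⟩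
    have S2 := (e.summable_iff.2 S1)
    have n3 : ∀ p : ℚ × ℚ, 0 ≤ ‖a p.2 * h (p.1 - p.2)‖ * ω p.1 :=
      fun p => nn (fun t => a p.2 * h (t - p.2)) (fun t ht => z t p.2 ht) p.1
    have S3 : Summable fun p : ℚ × ℚ => ‖a p.2 * h (p.1 - p.2)‖ * ω p.1 := by
      refine Summable.of_nonneg_of_le n3 (fun p => ?_) S2
      change _ ≤ ‖a p.2‖ * ω p.2 * (‖h (p.1 - p.2)‖ * ω (p.1 - p.2))
      rcases le_or_gt p.2 0 with hr | hr
      · simp [a0 _ hr]
      rcases le_or_gt (p.1 - p.2) 0 with hu | hu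
      · simp [hh.1 _ hu]
      have := hsub _ _ hr hu
      rw [add_sub_cancel] at this
      rw [norm_mul, mul_mul_mul_comm]
      exact mul_le_mul_of_nonneg_left this (by positivity)
    have c0 : ∀ t : ℚ, t ≤ 0 → ∑' r : ℚ, a r * h (t - r) = 0 := fun t ht => by
      simp only [z t _ ht, tsum_zero]
    refine ⟨c0, ?_, fun s hs => ?_⟩
    · refine Summable.of_nonneg_of_le (nn _ c0) (fun t => ?_) S3.prod
      rcases le_or_gt t 0 with ht | ht
      · simp only
        rw [c0 t ht, norm_zero, zero_mul]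
        exact tsum_nonneg fun r => n3 (t, r)
      · simp only
        rw [tsum_mul_right]
        refine mul_le_mul_of_nonneg_right (norm_tsum_le_tsum_norm ?_) (hpos t ht).le
        exact (summable_mul_right_iff (hpos t ht).ne').1 (S3.prod_factor t)
    · have S4 : Summable fun p : ℚ × ℚ => a p.2 * h (p.1 - p.2) * (φ (p.1 + s) : ℂ) :=
        Summable.of_norm_bounded (S3.mul_left C) fun p =>
          bd (fun t => a p.2 * h (t - p.2)) (fun t ht => z t p.2 ht) s hs p.1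
      simp only [← tsum_mul_right]
      rw [← Summable.tsum_comm (f := fun t r : ℚ => a r * h (t - r) * (φ (t + s) : ℂ)) S4]
      have : ∀ r : ℚ, ∑' t : ℚ, a r * h (t - r) * (φ (t + s) : ℂ) = 0 := by
        intro r
        rcases le_or_gt r 0 with hr | hr
        · simp [a0 r hr]
        · simp only [mul_assoc]
          rw [tsum_mul_left, ← (Equiv.addRight r).tsum_eq]
          simp only [Equiv.coe_addRight, add_sub_cancel_right, add_assoc]
          rw [hh.2.2 (r + s) (by linarith), mul_zero]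
      simp only [this, tsum_zero]
  · intro h h0 h1 happ
    refine ⟨h0, h1, fun s hs => ?_⟩
    refine norm_le_zero_iff.1 (le_of_forall_pos_le_add fun ε hε => ?_)
    obtain ⟨k, hk, hlt⟩ := happ (ε / C) (div_pos hε hC0)
    have d0 : ∀ q : ℚ, q ≤ 0 → h q - k q = 0 := fun q hq => by rw [h0 q hq, hk.1 q hq, sub_zero]
    have d1 := sadd h k h0 hk.1 h1 hk.2.1 _ d0 fun q => norm_sub_le _ _
    have e : ∑' q, h q * (φ (q + s) : ℂ) = ∑' q, (h q - k q) * (φ (q + s) : ℂ) := by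
      simp only [sub_mul]
      rw [(sm h h0 h1 s hs).tsum_sub (sm k hk.1 hk.2.1 s hs), hk.2.2 s hs, sub_zero]
    rw [e, zero_add]
    refine (tsum_of_norm_bounded (d1.mul_left C).hasSum (bd _ d0 s hs)).trans ?_
    rw [tsum_mul_left]
    rw [lt_div_iff₀ hC0] at hlt
    linarith
  · intro h
    rw [h] at fI
    have : f = 0 := fI
    rw [this] at fh
    simp at fh
  · intro α _
    constructor
    · intro h
      apply δI
      rw [h] at fI ⊢
      refine ⟨δ0, δ1, fun q hq => if_neg fun e => ?_⟩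
      have := fI.2.2 q hq
      rw [e, fh] at this
      exact one_ne_zero this
    · intro h
      apply δI
      rw [h] at fI ⊢
      refine ⟨δ0, δ1, fun q hq => if_neg fun e => ?_⟩
      have := fI.2.2 q hq
      rw [e, fh] at this
      exact one_ne_zero this

end Pool.Agent.P.MP_97b573_an
end
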